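import Pool.Agent.H3.Peb

set_option autoImplicit false

namespace Pool.Agent.Results.MP_3627f5_co.NlogN

open Pool.Agent.H3.Peb

theorem result : ∃ c : ℝ, 0 < c ∧ ∀ N0 : ℕ, ∃ N : ℕ, N0 ≤ N ∧ ∃ G : SimpleGraph (Fin N), G.IsTree ∧
    ∃ (n : ℕ) (f g : Fin n → Fin N), n < N ∧ Function.Injective f ∧ Function.Injective g ∧
      (∀ (k : ℕ) (v : Fin k → Fin N), IsIsthmus G k v → n + k < N) ∧
      ∀ (T : ℕ) (s : ℕ → Fin n → Fin N), s 0 = f → s T = g →
        (∀ t < T, Move G (s t) (s (t + 1))) → c * (N : ℝ) ^ 2 * Real.log N ≤ T := by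
  refine ⟨1 / 4160, by norm_num, fun J => ?_⟩
  obtain ⟨n, hn⟩ : ∃ n, n = 8 * 2 ^ J := ⟨_, rfl⟩
  have hJ : J < 2 ^ J := Nat.lt_two_pow_self
  refine ⟨2 * (n + 2) + 1 + 1, by omega, G _, isTree _, n, fun i => ⟨2 * (i.1 + 1), by omega⟩,
    fun i => ⟨2 * (n - i.1), by omega⟩, by omega, ?_, ?_, ?_, ?_⟩
  · intro a b e
    simp only [Fin.mk.injEq] at e
    exact Fin.ext (by omega)
  · intro a b e
    simp only [Fin.mk.injEq] at e
    exact Fin.ext (by omega)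
  · intro k v hv
    have := isthmus (n + 2) k (by omega) v hv
    omega
  · intro T s h0 hT hm
    have h := lower n _ J T hn s (fun i => by rw [h0]) (fun i => by rw [hT]) hm
    have hN : 2 * (n + 2) + 1 + 1 ≤ 2 ^ (J + 5) := by rw [pow_add]; omega
    have hN2 : 2 * (n + 2) + 1 + 1 ≤ 4 * n := by omega
    have hpos : 0 < 2 * (n + 2) + 1 + 1 := by omega
    generalize 2 * (n + 2) + 1 + 1 = N at hN hN2 hpos
    have hl : Real.log N ≤ 5 * ((J : ℝ) + 1) := by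
      have a : Real.log N ≤ Real.log ((2 : ℝ) ^ (J + 5)) :=
        Real.log_le_log (by exact_mod_cast hpos) (by exact_mod_cast hN)
      rw [Real.log_pow] at a
      have b : Real.log 2 ≤ 1 := by have := Real.log_two_lt_d9; linarith
      have c : (0 : ℝ) ≤ J := Nat.cast_nonneg _
      push_cast at a
      nlinarith
    have h' : ((J : ℝ) + 1) * (n : ℝ) ^ 2 ≤ 52 * T := by exact_mod_cast h
    have h2 : (N : ℝ) ≤ 4 * n := by exact_mod_cast hN2
    have h3 : (N : ℝ) ^ 2 ≤ 16 * (n : ℝ) ^ 2 := by nlinarith [(Nat.cast_nonneg N : (0 : ℝ) ≤ N)]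
    have h4 : (N : ℝ) ^ 2 * Real.log N ≤ (16 * (n : ℝ) ^ 2) * (5 * ((J : ℝ) + 1)) :=
      mul_le_mul h3 hl (Real.log_natCast_nonneg N) (by positivity)
    nlinarith

end Pool.Agent.Results.MP_3627f5_co.NlogN
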